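import Pool.Agent.Run7.h425.LV.Fin

/-!
# All levels of a randomly shifted arrangement of lines at once

The lines are `y = a l * x + B l`, `l : Fin n`; the slopes `a` are arbitrary, the intercepts `B l`
are independent with laws `ν l`. Definitions (`Pool/Agent/Results/MP_a08d0a_co/SmoothedLevel.lean`):

* `crossings a B k`: pairs `i < j` of non-parallel lines whose crossing point has exactly `k` lines
  strictly below it,
* `psi a B k`: the number of abscissae near which the `k`-level does not follow a single line, i.e.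
  the number of vertices of the `k`-level.
-/

set_option autoImplicit false

namespace Pool.Agent.Results.MP_a08d0a_co.AllLevelsSmoothed

open Finset MeasureTheory Filter
open Pool.Agent.Results.MP_a08d0a_co.SmoothedLevel (Simple crossings psi)
open scoped ENNReal Topology

theorem pointwise {A c : ℝ} (hA : 0 ≤ A) (m0 N : ℕ) (hc : c ≤ A * N) :
    c ≤ A * (m0 + ((range N).filter (fun m : ℕ => A * ((m0 : ℝ) + m) < c)).card) := by
  set j := ((range N).filter (fun m : ℕ => A * ((m0 : ℝ) + m) < c)).card with hj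
  by_contra hcon
  push Not at hcon
  by_cases hjN : j < N
  · have hsub : range (j + 1) ⊆ (range N).filter (fun m : ℕ => A * ((m0 : ℝ) + m) < c) := by
      intro m hm
      rw [mem_range] at hm
      rw [mem_filter, mem_range]
      refine ⟨by omega, lt_of_le_of_lt ?_ hcon⟩
      have : (m : ℝ) ≤ j := by exact_mod_cast Nat.lt_succ_iff.mp hm
      apply mul_le_mul_of_nonneg_left _ hA
      linarith
    have := card_le_card hsub
    rw [card_range] at this
    omega
  · push Not at hjN
    have h1 : (N : ℝ) ≤ j := by exact_mod_cast hjN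
    have h2 : A * N ≤ A * (m0 + j) := by
      apply mul_le_mul_of_nonneg_left _ hA
      have : (0 : ℝ) ≤ m0 := Nat.cast_nonneg _
      linarith
    linarith

theorem nonneg_of {D M : ℝ} {μ : Measure ℝ} [IsProbabilityMeasure μ]
    (hν : μ ≤ ENNReal.ofReal D • (volume : Measure ℝ)) (hM : ∀ᵐ b ∂μ, |b| ≤ M) :
    0 ≤ D ∧ 0 ≤ M := by
  constructor
  · by_contra hcon
    push Not at hcon
    rw [ENNReal.ofReal_of_nonpos hcon.le, zero_smul] at hν
    have := hν Set.univ
    simp at this
  · obtain ⟨b, hb⟩ := hM.exists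
    exact (abs_nonneg b).trans hb

/-- every level of a simple arrangement in terms of the crossings -/
theorem psi_bound {n : ℕ} {a B : Fin n → ℝ} (hS : Simple a B) {c : ℝ}
    (hc : ∀ k < n, ((crossings a B k).ncard : ℝ) ≤ c) {k : ℕ} (hk : k < n) :
    ∃ N : ℕ, psi a B k ≤ N ∧ (N : ℝ) ≤ 2 * c := by
  refine ⟨_, SmoothedLevel.psi_le hS hk, ?_⟩
  have h1 := hc k hk
  have h2 := hc (k - 1) (by omega)
  push_cast
  split_ifs with h
  · have : (0 : ℝ) ≤ ((crossings a B k).ncard : ℝ) := Nat.cast_nonneg _
    linarith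
  · linarith

/-- Lines with arbitrary slopes and independent random intercepts, each in `[-M, M]` with density at
most `D`.
1. For every `k` and every `m ≥ 1`, the number of crossings on the `k`-level exceeds
   `(8 + 22 D M) m n` with probability at most `2 exp (-m)`.
2. For every `m ≥ 1`, with probability at least `1 - 2 n exp (-m)` all levels have simultaneously
   at most `(16 + 44 D M) m n` vertices.
3. The expected maximum of the complexities of all the levels is at most
   `(16 + 44 D M) n (log n + 4)`. -/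
theorem result (n : ℕ) (a : Fin n → ℝ) (ν : Fin n → Measure ℝ) [∀ i, IsProbabilityMeasure (ν i)]
    (D M : ℝ) (hν : ∀ i, ν i ≤ ENNReal.ofReal D • (volume : Measure ℝ))
    (hM : ∀ i, ∀ᵐ b ∂ν i, |b| ≤ M) :
    (∀ k m : ℕ, 1 ≤ m →
      Measure.pi ν {B | (8 + 22 * D * M) * m * n < ((crossings a B k).ncard : ℝ)} ≤
        ENNReal.ofReal (2 * Real.exp (-m))) ∧
    (∀ m : ℕ, 1 ≤ m →
      Measure.pi ν {B | ¬ ∀ k < n, ∃ N : ℕ, psi a B k ≤ N ∧
        (N : ℝ) ≤ (16 + 44 * D * M) * m * n} ≤ ENNReal.ofReal (2 * n * Real.exp (-m))) ∧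
    ∫⁻ B, ⨆ k : Fin n, (psi a B k : ℝ≥0∞) ∂Measure.pi ν ≤
      ENNReal.ofReal ((16 + 44 * D * M) * n * (Real.log n + 4)) := by
  classical
  rcases Nat.eq_zero_or_pos n with hn | hn
  · subst hn
    refine ⟨fun k m hm => ?_, fun m hm => ?_, ?_⟩
    · have : {B : Fin 0 → ℝ | (8 + 22 * D * M) * m * (0 : ℕ) <
          ((crossings a B k).ncard : ℝ)} = ∅ := by
        ext B
        have h0 : crossings a B k = ∅ := by
          ext q
          exact q.1.elim0
        simp [h0]
      rw [this]
      simp
    · simp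
    · simp
  obtain ⟨hD, hM0⟩ := nonneg_of (hν ⟨0, hn⟩) (hM ⟨0, hn⟩)
  have hDM : 0 ≤ D * M := mul_nonneg hD hM0
  have hn1 : (1 : ℝ) ≤ n := by exact_mod_cast hn
  have hsimple := SmoothedLevel.ae_simple (ν := ν) (D := D)
    (fun i s t _ => Run7.h425.LV.interval hD (hν i) s t) a
  have hlev : ∀ k m : ℕ, 1 ≤ m →
      Measure.pi ν {B | (8 + 22 * D * M) * m * n < ((crossings a B k).ncard : ℝ)} ≤
        ENNReal.ofReal (2 * Real.exp (-m)) := fun k m hm =>
    Run7.h425.LV.tail_level hD hM0 a ν hν hM k m hm
  -- the exceptional event for all levels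
  set E : ℕ → Set (Fin n → ℝ) := fun m =>
    ⋃ k : Fin n, {B | (8 + 22 * D * M) * m * n < ((crossings a B k).ncard : ℝ)} with hE
  have hEm : ∀ m, MeasurableSet (E m) := by
    intro m
    refine MeasurableSet.iUnion fun k => ?_
    have h1 : {B : Fin n → ℝ | (8 + 22 * D * M) * m * n < ((crossings a B k).ncard : ℝ)} =
        {B | ENNReal.ofReal ((8 + 22 * D * M) * m * n) < ((crossings a B k).ncard : ℝ≥0∞)} := by
      ext B
      rw [Set.mem_ofPred_eq, Set.mem_ofPred_eq, ← ENNReal.ofReal_natCast,
        ENNReal.ofReal_lt_ofReal_iff_of_nonneg (by positivity)]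
    rw [h1]
    exact measurableSet_lt measurable_const (SmoothedLevel.measurable_crossings a k)
  have hEp : ∀ m : ℕ, 1 ≤ m → Measure.pi ν (E m) ≤ ENNReal.ofReal (2 * n * Real.exp (-m)) := by
    intro m hm
    calc Measure.pi ν (E m) ≤ ∑ k : Fin n, Measure.pi ν
          {B | (8 + 22 * D * M) * m * n < ((crossings a B k).ncard : ℝ)} :=
          measure_iUnion_fintype_le _ _
      _ ≤ ∑ _k : Fin n, ENNReal.ofReal (2 * Real.exp (-m)) := sum_le_sum fun k _ => hlev k m hm
      _ = _ := by
        rw [sum_const, card_univ, Fintype.card_fin, nsmul_eq_mul, ← ENNReal.ofReal_natCast,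
          ← ENNReal.ofReal_mul (Nat.cast_nonneg _)]
        congr 1
        ring
  refine ⟨hlev, ?_, ?_⟩
  · intro m hm
    refine le_trans (measure_mono_ae ?_) (hEp m hm)
    filter_upwards [hsimple] with B hB h
    change ¬ _ at h
    by_contra hcon
    apply h
    intro k hk
    have hc : ∀ k < n, ((crossings a B k).ncard : ℝ) ≤ (8 + 22 * D * M) * m * n := by
      intro k hk
      by_contra h'
      push Not at h'
      apply hcon
      rw [hE]
      exact Set.mem_iUnion.mpr ⟨⟨k, hk⟩, h'⟩
    obtain ⟨N, h1, h2⟩ := psi_bound hB hc hk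
    refine ⟨N, h1, h2.trans (le_of_eq ?_)⟩
    ring
  · set A : ℝ := (8 + 22 * D * M) * n with hA
    have hA0 : 0 ≤ A := by positivity
    set m0 : ℕ := ⌈Real.log n⌉₊ + 1 with hm0
    have hlog : 0 ≤ Real.log n := Real.log_nonneg hn1
    have hm0' : (m0 : ℝ) ≤ Real.log n + 2 := by
      rw [hm0]
      push_cast
      linarith [Nat.ceil_lt_add_one hlog]
    -- pointwise bound
    have hpt : ∀ᵐ B ∂Measure.pi ν, (⨆ k : Fin n, (psi a B k : ℝ≥0∞)) ≤
        ENNReal.ofReal (2 * A) * (m0 + ∑ m ∈ range (n * n),
          (E (m0 + m)).indicator (1 : (Fin n → ℝ) → ℝ≥0∞) B) := by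
      filter_upwards [hsimple] with B hB
      refine iSup_le fun k => ?_
      set J : Finset ℕ := (range (n * n)).filter (fun m => B ∈ E (m0 + m)) with hJ
      have hcr : ∀ k < n, ((crossings a B k).ncard : ℝ) ≤ A * (m0 + J.card) := by
        intro k hk
        have h1 : ((crossings a B k).ncard : ℝ) ≤ A * ((n * n : ℕ) : ℝ) := by
          have h2 := Set.ncard_le_card (s := crossings a B k)
          rw [Nat.card_eq_fintype_card, Fintype.card_prod, Fintype.card_fin] at h2
          have h3 : ((crossings a B k).ncard : ℝ) ≤ ((n * n : ℕ) : ℝ) := by exact_mod_cast h2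
          have h4 : (1 : ℝ) ≤ A := by
            rw [hA]
            nlinarith
          have h5 : (0 : ℝ) ≤ ((n * n : ℕ) : ℝ) := Nat.cast_nonneg _
          nlinarith
        refine (pointwise hA0 m0 (n * n) h1).trans ?_
        apply mul_le_mul_of_nonneg_left _ hA0
        have : ((range (n * n)).filter (fun m : ℕ => A * ((m0 : ℝ) + m) <
            ((crossings a B k).ncard : ℝ))).card ≤ J.card := by
          apply card_le_card
          intro m hm
          rw [mem_filter] at hm
          rw [hJ, mem_filter]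
          refine ⟨hm.1, ?_⟩
          rw [hE]
          refine Set.mem_iUnion.mpr ⟨⟨k, hk⟩, ?_⟩
          change (8 + 22 * D * M) * ((m0 + m : ℕ) : ℝ) * n < ((crossings a B k).ncard : ℝ)
          refine lt_of_le_of_lt (le_of_eq ?_) hm.2
          rw [hA]
          push_cast
          ring
        have h6 : (((range (n * n)).filter (fun m : ℕ => A * ((m0 : ℝ) + m) <
            ((crossings a B k).ncard : ℝ))).card : ℝ) ≤ J.card := by exact_mod_cast this
        linarith
      obtain ⟨N, h1, h2⟩ := psi_bound hB hcr k.2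
      have hsum : ∑ m ∈ range (n * n), (E (m0 + m)).indicator (1 : (Fin n → ℝ) → ℝ≥0∞) B =
          (J.card : ℝ≥0∞) := by
        rw [hJ, card_filter]
        push_cast
        refine sum_congr rfl fun m _ => ?_
        by_cases h : B ∈ E (m0 + m)
        · simp [h]
        · simp [h]
      rw [hsum]
      calc (psi a B k : ℝ≥0∞) ≤ ((N : ℕ∞) : ℝ≥0∞) := by exact_mod_cast h1
        _ = ENNReal.ofReal (N : ℝ) := by simp
        _ ≤ ENNReal.ofReal (2 * A * (m0 + J.card)) :=
            ENNReal.ofReal_le_ofReal (h2.trans (le_of_eq (by ring)))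
        _ = _ := by
            rw [ENNReal.ofReal_mul (by positivity),
              ENNReal.ofReal_add (Nat.cast_nonneg _) (Nat.cast_nonneg _),
              ENNReal.ofReal_natCast, ENNReal.ofReal_natCast]
    have hind : ∀ m, Measurable ((E (m0 + m)).indicator (1 : (Fin n → ℝ) → ℝ≥0∞)) := fun m =>
      measurable_one.indicator (hEm _)
    have hgeo : ∑ m ∈ range (n * n), 2 * (n : ℝ) * Real.exp (-((m0 + m : ℕ) : ℝ)) ≤ 2 := by
      have h1 : ∀ m : ℕ, 2 * (n : ℝ) * Real.exp (-((m0 + m : ℕ) : ℝ)) =
          2 * (n : ℝ) * Real.exp (-(m0 : ℝ)) * (Real.exp (-1)) ^ m := by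
        intro m
        rw [← Real.exp_nat_mul, mul_assoc (2 * (n : ℝ)), ← Real.exp_add]
        congr 2
        push_cast
        ring
      simp_rw [h1]
      rw [← mul_sum]
      have he : Real.exp (-1) < 0.3678794412 := Real.exp_neg_one_lt_d9
      have he0 : 0 < Real.exp (-1) := Real.exp_pos _
      have h2 : ∑ m ∈ range (n * n), (Real.exp (-1)) ^ m ≤ 1.6 := by
        have h3 := geom_sum_eq (by linarith : Real.exp (-1) ≠ 1) (n * n)
        rw [h3, div_le_iff_of_neg (by linarith)]
        have : 0 < Real.exp (-1) ^ (n * n) := by positivity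
        linarith
      have h4 : (n : ℝ) * Real.exp (-(m0 : ℝ)) ≤ Real.exp (-1) := by
        have h5 : Real.exp (-(m0 : ℝ)) ≤ Real.exp (-(Real.log n)) * Real.exp (-1) := by
          rw [← Real.exp_add]
          apply Real.exp_le_exp.mpr
          rw [hm0]
          push_cast
          linarith [Nat.le_ceil (Real.log n)]
        rw [Real.exp_neg (Real.log n), Real.exp_log (by linarith)] at h5
        calc (n : ℝ) * Real.exp (-(m0 : ℝ)) ≤ n * ((n : ℝ)⁻¹ * Real.exp (-1)) := by gcongr
          _ = Real.exp (-1) := by field_simp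
      have h6 : 0 ≤ ∑ m ∈ range (n * n), (Real.exp (-1)) ^ m := sum_nonneg fun _ _ => by positivity
      calc 2 * (n : ℝ) * Real.exp (-(m0 : ℝ)) * ∑ m ∈ range (n * n), (Real.exp (-1)) ^ m
          = 2 * ((n : ℝ) * Real.exp (-(m0 : ℝ))) * ∑ m ∈ range (n * n), (Real.exp (-1)) ^ m := by
            ring
        _ ≤ 2 * Real.exp (-1) * 1.6 := by gcongr
        _ ≤ 2 := by linarith
    calc ∫⁻ B, ⨆ k : Fin n, (psi a B k : ℝ≥0∞) ∂Measure.pi ν
        ≤ ∫⁻ B, ENNReal.ofReal (2 * A) * (m0 + ∑ m ∈ range (n * n),
          (E (m0 + m)).indicator (1 : (Fin n → ℝ) → ℝ≥0∞) B) ∂Measure.pi ν :=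
          lintegral_mono_ae hpt
      _ = ENNReal.ofReal (2 * A) * (m0 + ∑ m ∈ range (n * n), Measure.pi ν (E (m0 + m))) := by
          rw [lintegral_const_mul' _ _ ENNReal.ofReal_ne_top,
            lintegral_add_left measurable_const, lintegral_finsetSum _ (fun m _ => hind m)]
          congr 2
          · simp
          · refine sum_congr rfl fun m _ => ?_
            rw [lintegral_indicator_one (hEm _)]
      _ ≤ ENNReal.ofReal (2 * A) * (m0 + ∑ m ∈ range (n * n),
            ENNReal.ofReal (2 * n * Real.exp (-((m0 + m : ℕ) : ℝ)))) := by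
          gcongr with m _
          exact hEp _ (by omega)
      _ = ENNReal.ofReal (2 * A * (m0 + ∑ m ∈ range (n * n),
            2 * (n : ℝ) * Real.exp (-((m0 + m : ℕ) : ℝ)))) := by
          rw [← ENNReal.ofReal_sum_of_nonneg (fun _ _ => by positivity), ENNReal.ofReal_mul
            (p := 2 * A) (by positivity), ENNReal.ofReal_add (Nat.cast_nonneg _)
            (sum_nonneg fun _ _ => by positivity), ENNReal.ofReal_natCast]
      _ ≤ ENNReal.ofReal ((16 + 44 * D * M) * n * (Real.log n + 4)) := by
          apply ENNReal.ofReal_le_ofReal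
          calc 2 * A * (m0 + ∑ m ∈ range (n * n),
                2 * (n : ℝ) * Real.exp (-((m0 + m : ℕ) : ℝ)))
              ≤ 2 * A * (Real.log n + 4) := by
                apply mul_le_mul_of_nonneg_left _ (by positivity)
                linarith
            _ = _ := by rw [hA]; ring

end Pool.Agent.Results.MP_a08d0a_co.AllLevelsSmoothed
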