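import Pool.Agent.Run7.h721.KL3.AllK3

/-!
# Every level of a line arrangement: `e_k(n) ≥ n * m ^ (C / (log log m) ^ 3)` for every `C`

Here `m = min (k, n - k)`.  `height`, `level`, `kLevel`, `IsVertex`, `complexity` and `e` are
defined in `Pool/Agent/KLev/Levels.lean` (namespace `KLev.Levels`).

The exponent `3` replaces the exponent `4` of `AllLevelsLogLog.lean`.  The composition of blocks
of `Pool/Agent/N35/HL` is used with different inner blocks, in decreasing order of size and with
one common denominator for all slopes (`Pool/Agent/Run7/h721/KL3`).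
-/

namespace Pool.Agent.Results.MP_a08d0a_co.CubicLogLog

open KLev

/-- For every real `C` there is `k₀` such that for all `n` and all `k` with `k₀ ≤ k ≤ n - k₀`,
with `m = min k (n - k)`, some arrangement of `n` lines has a `k`-level with at least
`n * m ^ (C / (log log m) ^ 3)` vertices. -/
theorem result : ∀ C : ℝ, ∃ k₀ : ℕ, ∀ n k : ℕ, k₀ ≤ k → k + k₀ ≤ n →
    (n : ℝ) * ((min k (n - k) : ℕ) : ℝ) ^
      (C / (Real.log (Real.log ((min k (n - k) : ℕ) : ℝ))) ^ 3) ≤ (Levels.e k n : ℝ) :=
  Pool.Agent.Run7.h721.KL3.all_levels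

end Pool.Agent.Results.MP_a08d0a_co.CubicLogLog
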