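import Pool.Agent.FC602.EvK

/-!
# A single level after a few changes of the lines

How complex can the `k`-level of `n` lines be if it has to stay complex after every change of at
most `t` lines? Adding `t` lines always brings it down to `O (n (k / t) ^ (1 / 3) + t)`, and for
`n` and `k` large compared with `t` there are arrangements for which no change of at most `t` lines,
additions and deletions, brings it below `n (k / t) ^ o(1)`, with the `o(1)` of the best known lower
bound for the level of order `k / t`.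

`height`, `level`, `kLevel`, `IsVertex` and `complexity` are defined in
`Pool/Agent/KLev/Levels.lean` (namespace `KLev.Levels`): a line is a pair (slope, intercept), the
`k`-level is the closure of the set of points on the lines with exactly `k` lines strictly below,
and its complexity is the number of the points where it passes from one line to another. In
`Pool/Agent/FC602/RobK.lean` (namespace `Pool.Agent.FC602`):

* `NoThree U`: no three lines of `U` pass through a common point (parallel lines are allowed).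
-/

set_option autoImplicit false

namespace Pool.Agent.Results.MP_a08d0a_co.LevelsAfterChanges

open Finset KLev.Levels
open Pool.Agent.FC602 (NoThree)
open Pool.Agent.TH124.KE (GP sl hh kes bel)

/-- no two lines of `Γ` are parallel and no three pass through a common point -/
def Simple (Γ : Finset (ℝ × ℝ)) : Prop :=
  (∀ l ∈ Γ, ∀ m ∈ Γ, l.1 = m.1 → l = m) ∧ NoThree Γ

/-- the common point of two lines that are not parallel -/
noncomputable def cross (l m : ℝ × ℝ) : ℝ × ℝ :=
  ((m.2 - l.2) / (l.1 - m.1), height l ((m.2 - l.2) / (l.1 - m.1)))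

open scoped Classical in
/-- the number of the pairs of lines with exactly `k` lines strictly below their common point -/
noncomputable def crossings (Γ : Finset (ℝ × ℝ)) (k : ℕ) : ℕ :=
  #{z ∈ Γ ×ˢ Γ | z.1.1 < z.2.1 ∧ level Γ (cross z.1 z.2) = k}

lemma simple_iff (Γ : Finset (ℝ × ℝ)) : Simple Γ ↔ GP Γ := by
  constructor
  · rintro ⟨h1, h2⟩
    refine ⟨fun p hp q hq h => h1 p hp q hq h, ?_⟩
    intro p hp q hq r hr hpq hpr hqr h
    have e1 : p.1 ≠ q.1 := fun h => hpq (h1 p hp q hq h)
    have e2 : p.1 ≠ r.1 := fun h => hpr (h1 p hp r hr h)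
    refine Pool.Agent.FC602.nt_hh h2 hp hq hr hpq hpr hqr (sl p q)
      (Pool.Agent.TH124.KE.hh_sl e1) ?_
    rw [h]
    exact Pool.Agent.TH124.KE.hh_sl e2
  · intro h
    exact ⟨h.inj, Pool.Agent.FC602.nt_of_gp h⟩

open scoped Classical in
lemma kes_eq (Γ : Finset (ℝ × ℝ)) (k : ℕ) : #(kes Γ k) = crossings Γ k := by
  unfold crossings kes
  congr 1
  ext z
  rw [mem_filter, mem_filter]
  unfold Pool.Agent.TH124.KE.KE
  have key : z.1.1 < z.2.1 → level Γ (cross z.1 z.2) = bel Γ (sl z.1 z.2) z.1 := by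
    intro h
    have e : (z.2.2 - z.1.2) / (z.1.1 - z.2.1) = - sl z.1 z.2 := by
      unfold sl
      rw [← neg_sub z.2.1 z.1.1, div_neg]
    unfold level bel cross
    congr 1
    ext j
    rw [mem_filter, mem_filter]
    simp only
    rw [e, Pool.Agent.FC602.height_hh, Pool.Agent.FC602.height_hh, neg_neg]
  constructor
  · rintro ⟨h1, h2, h3, h4, h5⟩
    exact ⟨h1, h4, by rw [key h4]; exact h5⟩
  · rintro ⟨h1, h2, h3⟩
    exact ⟨h1, (mem_product.mp h1).1, (mem_product.mp h1).2, h2, by rw [← key h2]; exact h3⟩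

open scoped Classical in
/-- 1. (Additions.) To every simple arrangement `Γ` of `n` lines one can add, for all `k` and `t`,
   exactly `t` lines such that the new arrangement is simple and its `k`-level has at most
   `58 n ((k + 1) / (t + 1)) ^ (1 / 3) + 2 t` vertices.
2. (Levels that cannot be simplified.) For every simple arrangement `Q` and all `k₀` and `M` there
   is a simple arrangement `Γ` of `|Q| M` lines such that for every set `U` of lines, no three of
   them through a common point, and all `j` and `d` with `|j + 1 - (k₀ + 1) M| ≤ d` the `j`-level of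
   `U` has at least `F (M - d - 2 (|Γ \ U| + |U \ Γ|) - 1)` vertices, where `F` is the number of the
   crossing points of `Q` with exactly `k₀` lines below.
3. There is a constant `k₀` such that for all `N`, `k` with `k₀ ≤ k ≤ N - k₀` and all `t` there is a
   simple arrangement `Γ` of `n = (6 t + 3) N` lines such that for every set `U` of lines, no three
   of them through a common point, with `|Γ \ U| + |U \ Γ| ≤ t`, and every `j` with
   `|j + 1 - (k + 1) (6 t + 3)| ≤ t` the `j`-level of `U` has at least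
   `(n / 2) m ^ exp (-3 √(log log m))` vertices, `m = min k (N - k)`. -/
theorem result :
    (∀ Γ : Finset (ℝ × ℝ), Simple Γ → ∀ k t : ℕ,
      ∃ Γ' : Finset (ℝ × ℝ), Γ ⊆ Γ' ∧ Simple Γ' ∧ #Γ' = #Γ + t ∧
        (complexity Γ' k : ℝ) ≤
          58 * #Γ * (((k : ℝ) + 1) / (t + 1)) ^ (1 / 3 : ℝ) + 2 * t) ∧
    (∀ Q : Finset (ℝ × ℝ), Simple Q → ∀ k₀ M : ℕ,
      ∃ Γ : Finset (ℝ × ℝ), Simple Γ ∧ #Γ = #Q * M ∧ ∀ U : Finset (ℝ × ℝ), NoThree U →
        ∀ j d : ℕ, (k₀ + 1) * M ≤ j + 1 + d → j + 1 ≤ (k₀ + 1) * M + d →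
          crossings Q k₀ * (M - (d + 2 * (#(Γ \ U) + #(U \ Γ)) + 1)) ≤ complexity U j) ∧
    (∃ k₀ : ℕ, ∀ N k t : ℕ, k₀ ≤ k → k + k₀ ≤ N →
      ∃ Γ : Finset (ℝ × ℝ), Simple Γ ∧ #Γ = (6 * t + 3) * N ∧ ∀ U : Finset (ℝ × ℝ), NoThree U →
        #(Γ \ U) + #(U \ Γ) ≤ t → ∀ j : ℕ, (k + 1) * (6 * t + 3) ≤ j + 1 + t →
          j + 1 ≤ (k + 1) * (6 * t + 3) + t →
          (#Γ : ℝ) / 2 * ((min k (N - k) : ℕ) : ℝ) ^
            Real.exp (-3 * √(Real.log (Real.log ((min k (N - k) : ℕ) : ℝ)))) ≤
              (complexity U j : ℝ)) := by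
  refine ⟨?_, ?_, ?_⟩
  · intro Γ hΓ k t
    obtain ⟨V', h1, h2, h3, h4⟩ := Pool.Agent.FC602.insK' ((simple_iff Γ).mp hΓ) k t
    exact ⟨V', h1, (simple_iff V').mpr h2, h3, h4⟩
  · intro Q hQ k₀ M
    obtain ⟨P, h1, h2, h3⟩ := Pool.Agent.FC602.robustK ((simple_iff Q).mp hQ) k₀ M
    refine ⟨P, (simple_iff P).mpr h1, h2, ?_⟩
    intro U hU j d hj1 hj2
    rw [← kes_eq]
    exact (h3 U hU j d hj1 hj2).trans (Pool.Agent.FC602.kes_le_complexity hU j)
  · obtain ⟨k₀, h0⟩ := Pool.Agent.FC602.robust_levels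
    refine ⟨k₀, fun N k t h1 h2 => ?_⟩
    obtain ⟨Γ, g1, g2, g3⟩ := h0 N k t h1 h2
    exact ⟨Γ, (simple_iff Γ).mpr g1, g2, g3⟩

end Pool.Agent.Results.MP_a08d0a_co.LevelsAfterChanges
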