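import Pool.Agent.Run7.h249.RM.Iid

/-!
# A single level of an arrangement with arbitrary slopes and randomly matched intercepts

`n` lines `y = a l * x + B l`.

Idea. Let `x ≥ 0` be the abscissa of a crossing with at most `k` lines below. A line with more than
`k` lines of smaller slope and smaller intercept has more than `k` lines below it at `x`, so the
lines at or below the crossing are among the lines with at most `k` lines of smaller slope and
smaller intercept, and Dey's bound can be applied to these. If the intercepts are matched at random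
with the slopes, a line whose slope is the `r`-th smallest is of this kind with probability at most
`(k + 1) / r`, so there are on average at most `(k + 1) (1 + log (n / (k + 1)))` such lines.
-/

set_option autoImplicit false

namespace Pool.Agent.Results.MP_a08d0a_co.RandomIntercepts

open Finset MeasureTheory
open scoped ENNReal Topology

/-- General position: no two of the lines `y = a l * x + B l` coincide and no three of them pass
through a common point. -/
def Simple {n : ℕ} (a B : Fin n → ℝ) : Prop :=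
  (∀ i j, i ≠ j → a i = a j → B i ≠ B j) ∧
    ∀ i j l, i ≠ j → i ≠ l → j ≠ l →
      ¬ ∃ x, a i * x + B i = a j * x + B j ∧ a i * x + B i = a l * x + B l

/-- The `k`-level as a function of `x`: the smallest height with more than `k` lines weakly below,
i.e. the `(k+1)`-st lowest line above `x`. -/
noncomputable def level {n : ℕ} (a B : Fin n → ℝ) (k : ℕ) (x : ℝ) : ℝ :=
  sInf {y | k < {l | a l * x + B l ≤ y}.ncard}

/-- The complexity of the `k`-level: the number of abscissas near which the level does not follow a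
single line. -/
noncomputable def psi {n : ℕ} (a B : Fin n → ℝ) (k : ℕ) : ℕ∞ :=
  {x : ℝ | ¬ ∃ l, level a B k =ᶠ[𝓝 x] fun x => a l * x + B l}.encard

/-- The pairs `i < j` of non-parallel lines whose crossing has exactly `k` lines strictly below. -/
def crossings {n : ℕ} (a B : Fin n → ℝ) (k : ℕ) : Set (Fin n × Fin n) :=
  {q | q.1 < q.2 ∧ a q.1 ≠ a q.2 ∧
    {l | a l * ((B q.2 - B q.1) / (a q.1 - a q.2)) + B l <
      a q.1 * ((B q.2 - B q.1) / (a q.1 - a q.2)) + B q.1}.ncard = k}

/-- The number of crossings with exactly `k` or exactly `k - 1` lines below. -/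
noncomputable def vertices {n : ℕ} (a B : Fin n → ℝ) (k : ℕ) : ℕ :=
  (crossings a B k).ncard + (if k = 0 then 0 else (crossings a B (k - 1)).ncard)

/-- The lines with at most `k` lines below them throughout `I`. -/
def low {n : ℕ} (a B : Fin n → ℝ) (k : ℕ) (I : Set ℝ) : Set (Fin n) :=
  {l | {m | ∀ x ∈ I, a m * x + B m < a l * x + B l}.ncard ≤ k}

/-- The bound `68 (m + 1) ^ (4 / 3) (1 + log (n / (m + 1)))`, `m = min k (n - 1 - k)`. -/
noncomputable def bound (n k : ℕ) : ℝ :=
  68 * ((min k (n - 1 - k) : ℕ) + 1 : ℝ) ^ (4 / 3 : ℝ) *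
    (1 + Real.log (n / ((min k (n - 1 - k) : ℕ) + 1)))

open scoped Classical in
/-- Let `a` be `n` distinct slopes and `k < n`.

(1) If finitely many sets `I t` cover the real line, the complexity of the `k`-level of a simple
arrangement is at most `(14 + 20 k ^ (1 / 3))` times the sum over `t` of the number of the lines with
at most `k` lines below them throughout `I t`.

(2) For `n` distinct numbers `b` the sum of the complexities of the `k`-levels of the lines
`y = a l * x + b (σ l)`, over all permutations `σ` for which the arrangement is simple, is at most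
`n! * bound n k`.

(3) The same for random intercepts with an exchangeable law.

(4) In particular for independent intercepts with any common law without atoms. -/
theorem result {n : ℕ} (a : Fin n → ℝ) (ha : Function.Injective a) (k : ℕ) (hk : k < n) :
    -- (1)
    (∀ B : Fin n → ℝ, Simple a B → ∀ (s : ℕ) (I : Fin s → Set ℝ), (∀ x, ∃ t, x ∈ I t) →
      (psi a B k : ℝ≥0∞) ≤
        ENNReal.ofReal ((14 + 20 * (k : ℝ) ^ (1 / 3 : ℝ)) * ∑ t, ((low a B k (I t)).ncard : ℝ))) ∧
    -- (2)
    (∀ b : Fin n → ℝ, Function.Injective b →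
      ∑ σ ∈ univ.filter (fun σ : Equiv.Perm (Fin n) => Simple a (b ∘ σ)),
        (psi a (b ∘ σ) k : ℝ≥0∞) ≤ ENNReal.ofReal (n.factorial * bound n k)) ∧
    -- (3)
    (∀ ν : Measure (Fin n → ℝ), IsProbabilityMeasure ν →
      (∀ τ : Equiv.Perm (Fin n), ν.map (fun b => b ∘ τ) = ν) →
      (∀ᵐ b ∂ν, Function.Injective b) → (∀ᵐ b ∂ν, Simple a b) →
      Measurable (fun b => (vertices a b k : ℝ≥0∞)) ∧
      (∀ᵐ b ∂ν, psi a b k ≤ vertices a b k) ∧
      ∫⁻ b, (vertices a b k : ℝ≥0∞) ∂ν ≤ ENNReal.ofReal (bound n k)) ∧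
    -- (4)
    (∀ μ : Measure ℝ, IsProbabilityMeasure μ → (∀ x, μ {x} = 0) →
      (∀ᵐ b ∂(Measure.pi fun _ : Fin n => μ), Simple a b ∧ psi a b k ≤ vertices a b k) ∧
      ∫⁻ b, (vertices a b k : ℝ≥0∞) ∂(Measure.pi fun _ : Fin n => μ) ≤
        ENNReal.ofReal (bound n k)) := by
  have hpsi : ∀ b : Fin n → ℝ, Simple a b → psi a b k ≤ (vertices a b k : ℕ∞) := by
    intro b hb
    exact Pool.Agent.Results.MP_a08d0a_co.SmoothedLevel.psi_le hb hk
  have h3 : ∀ ν : Measure (Fin n → ℝ), IsProbabilityMeasure ν →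
      (∀ τ : Equiv.Perm (Fin n), ν.map (fun b => b ∘ τ) = ν) →
      (∀ᵐ b ∂ν, Function.Injective b) → (∀ᵐ b ∂ν, Simple a b) →
      Measurable (fun b => (vertices a b k : ℝ≥0∞)) ∧
      (∀ᵐ b ∂ν, psi a b k ≤ vertices a b k) ∧
      ∫⁻ b, (vertices a b k : ℝ≥0∞) ∂ν ≤ ENNReal.ofReal (bound n k) := by
    intro ν hν hex hinj hS
    refine ⟨Pool.Agent.Run7.h249.RM.measurable_W a k, ?_,
      Pool.Agent.Run7.h249.RM.exch_bound ha hex hinj hS hk⟩
    filter_upwards [hS] with b hb
    exact hpsi b hb
  refine ⟨?_, ?_, h3, ?_⟩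
  · intro B hB s I hI
    have h1 : ((vertices a B k : ℕ) : ℝ) ≤
        (14 + 20 * (k : ℝ) ^ (1 / 3 : ℝ)) * ∑ t, ((low a B k (I t)).ncard : ℝ) := by
      have h2 : ∀ j ≤ k, ((crossings a B j).ncard : ℝ) ≤
          (7 + 10 * (k : ℝ) ^ (1 / 3 : ℝ)) * ∑ t, ((low a B k (I t)).ncard : ℝ) :=
        fun j hj => Pool.Agent.Run7.h249.RM.cover_bound ha hB hj I hI
      have h4 := h2 k le_rfl
      have h5 := h2 (k - 1) (by omega)
      have h6 : (0 : ℝ) ≤ (7 + 10 * (k : ℝ) ^ (1 / 3 : ℝ)) *
          ∑ t, ((low a B k (I t)).ncard : ℝ) := by positivity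
      unfold vertices
      push_cast
      split_ifs <;> nlinarith
    have h2 : (psi a B k : ℝ≥0∞) ≤ ((vertices a B k : ℕ∞) : ℝ≥0∞) := by
      exact_mod_cast hpsi B hB
    refine h2.trans ?_
    rw [ENat.toENNReal_coe, ← ENNReal.ofReal_natCast]
    exact ENNReal.ofReal_le_ofReal h1
  · intro b hb
    have h1 : ∑ σ ∈ univ.filter (fun σ : Equiv.Perm (Fin n) => Simple a (b ∘ σ)),
        (vertices a (b ∘ σ) k : ℝ) ≤ n.factorial * bound n k :=
      Pool.Agent.Run7.h249.RM.perm_bound ha hb hk
    calc ∑ σ ∈ univ.filter (fun σ : Equiv.Perm (Fin n) => Simple a (b ∘ σ)),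
        (psi a (b ∘ σ) k : ℝ≥0∞)
        ≤ ∑ σ ∈ univ.filter (fun σ : Equiv.Perm (Fin n) => Simple a (b ∘ σ)),
          ENNReal.ofReal (vertices a (b ∘ σ) k : ℝ) := by
          apply sum_le_sum
          intro σ hσ
          have h2 : (psi a (b ∘ σ) k : ℝ≥0∞) ≤ ((vertices a (b ∘ σ) k : ℕ∞) : ℝ≥0∞) := by
            exact_mod_cast hpsi _ (mem_filter.mp hσ).2
          rwa [ENat.toENNReal_coe, ← ENNReal.ofReal_natCast] at h2
      _ = ENNReal.ofReal (∑ σ ∈ univ.filter (fun σ : Equiv.Perm (Fin n) => Simple a (b ∘ σ)),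
          (vertices a (b ∘ σ) k : ℝ)) := by
          rw [ENNReal.ofReal_sum_of_nonneg (fun _ _ => by positivity)]
      _ ≤ _ := ENNReal.ofReal_le_ofReal h1
  · intro μ hμ h0
    obtain ⟨-, h4, h5⟩ := h3 (Measure.pi fun _ : Fin n => μ) inferInstance
      (fun τ => Pool.Agent.Run7.h249.RM.iid_exch μ τ) (Pool.Agent.Run7.h249.RM.ae_inj μ h0)
      (Pool.Agent.Run7.h249.RM.ae_simple μ h0 a)
    refine ⟨?_, h5⟩
    filter_upwards [h4, Pool.Agent.Run7.h249.RM.ae_simple μ h0 a] with b h6 h7
    exact ⟨h7, h6⟩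

end Pool.Agent.Results.MP_a08d0a_co.RandomIntercepts
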